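import Mathlib
import Pool.Agent.Helper65.SL.Base

set_option maxSynthPendingDepth 3
set_option linter.unusedSectionVars false
set_option linter.deprecated false
set_option linter.unusedVariables false

namespace Pool.Agent.Helper95.SL

open Filter Topology
open scoped ContDiff Manifold
open Pool.Agent.Helper65.SL Pool.Agent.Helper23.Ric

theorem posdef_gram {E : Type*} [NormedAddCommGroup E] [NormedSpace ℝ E]
    (B : E →L[ℝ] E →L[ℝ] ℝ) (hs : ∀ v w, B v w = B w v) (hp : ∀ v, v ≠ 0 → 0 < B v v)
    {m : ℕ} (d : Module.Basis (Fin m) ℝ E) :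
    0 < (Matrix.of fun i j => B (d i) (d j)).det := by
  have hpd : (Matrix.of fun i j => B (d i) (d j)).PosDef := by
    refine Matrix.PosDef.of_dotProduct_mulVec_pos ?_ ?_
    · ext i j
      simp [Matrix.conjTranspose_apply, hs (d j) (d i)]
    · intro x hx
      have hne : ∑ i, x i • d i ≠ 0 := by
        intro h0
        apply hx
        have := Fintype.linearIndependent_iff.1 d.linearIndependent x h0
        funext i
        exact this i
      have := hp _ hne
      have h1 : star x ⬝ᵥ (Matrix.of fun i j => B (d i) (d j)).mulVec x =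
          B (∑ i, x i • d i) (∑ i, x i • d i) := by
        simp only [dotProduct, Matrix.mulVec, map_sum, map_smul, Matrix.of_apply,
          ContinuousLinearMap.coe_sum', Finset.sum_apply, ContinuousLinearMap.smul_apply,
          smul_eq_mul, Pi.star_apply, star_trivial, Finset.mul_sum]
        rw [Finset.sum_comm]
        refine Finset.sum_congr rfl fun i _ => Finset.sum_congr rfl fun j _ => ?_
        ring
      rw [h1]
      exact this
  exact hpd.det_pos

theorem pf_add_const {E : Type*} [NormedAddCommGroup E] [NormedSpace ℝ E] [FiniteDimensional ℝ E]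
    (m : ℕ) (θ : E → ℝ) (c : ℝ) (G : E → E →L[ℝ] E →L[ℝ] ℝ) (z : E) (e : Fin m → E) :
    pf m (fun y => θ y + c) G z e = pf m θ G z e := by
  have h1 : fderiv ℝ (fun y => θ y + c) = fderiv ℝ θ := by
    funext y
    exact fderiv_add_const c
  simp only [pf, hess, h1]

section manifold

variable {E₁ E₂ : Type*} [NormedAddCommGroup E₁] [NormedSpace ℝ E₁] [FiniteDimensional ℝ E₁]
  [NormedAddCommGroup E₂] [NormedSpace ℝ E₂] [FiniteDimensional ℝ E₂]
  {H₁ H₂ : Type*} [TopologicalSpace H₁] [TopologicalSpace H₂]
  {I : ModelWithCorners ℝ E₁ H₁} {J : ModelWithCorners ℝ E₂ H₂} [I.Boundaryless] [J.Boundaryless]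
  {M N : Type*} [TopologicalSpace M] [TopologicalSpace N]
  [ChartedSpace H₁ M] [IsManifold I ∞ M] [ChartedSpace H₂ N] [IsManifold J ∞ N]

theorem cont_rho (ρ : M → N → ℝ)
    (hsm : ∀ x y, ContDiffAt ℝ ∞ (fun p : E₁ × E₂ =>
      ρ ((extChartAt I x).symm p.1) ((extChartAt J y).symm p.2)) (extChartAt I x x, extChartAt J y y))
    (y : N) : Continuous (fun x => ρ x y) := by
  rw [continuous_iff_continuousAt]
  intro x
  have h1 := (hsm x y).continuousAt
  have h2 : ContinuousAt (fun x' : M => (extChartAt I x x', extChartAt J y y)) x :=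
    (continuousAt_extChartAt x).prodMk continuousAt_const
  have h3 : ContinuousAt (fun x' : M => (fun p : E₁ × E₂ =>
      ρ ((extChartAt I x).symm p.1) ((extChartAt J y).symm p.2))
      (extChartAt I x x', extChartAt J y y)) x :=
    ContinuousAt.comp (g := fun p : E₁ × E₂ =>
      ρ ((extChartAt I x).symm p.1) ((extChartAt J y).symm p.2))
      (f := fun x' : M => (extChartAt I x x', extChartAt J y y)) h1 h2
  refine h3.congr ?_
  filter_upwards [extChartAt_source_mem_nhds (I := I) x] with x' hx'
  simp only [extChartAt_to_inv, (extChartAt I x).left_inv hx']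

/-- MODULE PPS -/
theorem pps [CompactSpace M] {m : ℕ} (hm : 2 ≤ m) (hdim : m = Module.finrank ℝ E₂)
    (b : Module.Basis (Fin 2) ℝ E₁)
    (cnf : ∀ {G : E₂ → E₂ →L[ℝ] E₂ →L[ℝ] ℝ} {z : E₂} {φ : E₂ → ℝ}, GoodAt G z → ContDiffAt ℝ 2 φ z →
      ∀ e : Fin m → E₂, IsOrtho (G z) e →
      ∑ i, ricci (conf φ G) z (Real.exp (-φ z) • e i) (Real.exp (-φ z) • e i) =
        Real.exp (-2 * φ z) * pf m φ G z e)
    (g : RMetric (I.prod J) (M × N)) (h₀ : RMetric J N)
    (ρ : M → N → ℝ) (hρ : ∀ x y, sliceForm g x y = ρ x y • h₀.form.at y)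
    (hpos : ∀ x y, 0 < ρ x y)
    (hsm : ∀ x y, ContDiffAt ℝ ∞ (fun p : E₁ × E₂ =>
      ρ ((extChartAt I x).symm p.1) ((extChartAt J y).symm p.2)) (extChartAt I x x, extChartAt J y y))
    (mpt : ∀ (x : M) (y : N) (d : Module.Basis (Fin m) ℝ E₂),
      IsLocalMin (fun x' => (Matrix.of fun i j => sliceForm g x' y (d i) (d j)).det) x →
      ∀ e : Fin m → E₂, IsOrtho (inChart J (newForm m b g x) y (extChartAt J y y)) e →
      0 < ∑ i, ricci (inChart J (newForm m b g x) y) (extChartAt J y y) (e i) (e i))
    (Θ : M → N → ℝ) (lam : M → ℝ) (c₁ : ℝ) (hc₁ : 0 ≤ c₁) (B : N → ℝ)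
    (hΘ : ∀ x y, Θ x y = c₁ * Real.log (ρ x y) + B y)
    (hform : ∀ x y, newForm m b g x y = Real.exp (2 * (Θ x y + lam x)) • h₀.form.at y)
    (hΘs : ∀ x y, ContDiffAt ℝ ∞ (fun p : E₁ × E₂ =>
        Θ ((extChartAt I x).symm p.1) ((extChartAt J y).symm p.2))
        (extChartAt I x x, extChartAt J y y))
    (x : M) (y : N) (hmin : ∀ x', Θ x y ≤ Θ x' y) (e : Fin m → E₂)
    (he : IsOrtho (inChart J h₀.form y (extChartAt J y y)) e) :
    0 < pf m (fun z => Θ x ((extChartAt J y).symm z)) (inChart J h₀.form y) (extChartAt J y y) e := by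
  -- the case where `ρ · y` is minimal at `x`
  have core : ∀ x : M, (∀ x', ρ x y ≤ ρ x' y) →
      0 < pf m (fun z => Θ x ((extChartAt J y).symm z)) (inChart J h₀.form y)
        (extChartAt J y y) e := by
    intro x hx
    let d : Module.Basis (Fin m) ℝ E₂ := (Module.finBasis ℝ E₂).reindex (finCongr hdim.symm)
    have hdet : ∀ x' : M, (Matrix.of fun i j => sliceForm g x' y (d i) (d j)).det =
        ρ x' y ^ m * (Matrix.of fun i j => h₀.form.at y (d i) (d j)).det := by
      intro x'
      have h1 : (Matrix.of fun i j => sliceForm g x' y (d i) (d j)) =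
          ρ x' y • (Matrix.of fun i j => h₀.form.at y (d i) (d j)) := by
        ext i j
        simp only [Matrix.of_apply, Matrix.smul_apply, hρ, ContinuousLinearMap.smul_apply]
      rw [h1, Matrix.det_smul, Fintype.card_fin]
    have hgram : 0 < (Matrix.of fun i j => h₀.form.at y (d i) (d j)).det :=
      posdef_gram (h₀.form.at y) (h₀.at_symm y) (fun v hv => h₀.at_pos y hv) d
    have hloc : IsLocalMin
        (fun x' => (Matrix.of fun i j => sliceForm g x' y (d i) (d j)).det) x := by
      refine Eventually.of_forall fun x' => ?_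
      simp only [hdet]
      exact mul_le_mul_of_nonneg_right
        (pow_le_pow_left₀ (hpos x y).le (hx x') m) hgram.le
    set z := extChartAt J y y with hz
    set φ : E₂ → ℝ := fun z' => Θ x ((extChartAt J y).symm z') + lam x with hφdef
    have heq : inChart J (newForm m b g x) y = conf φ (inChart J h₀.form y) := by
      funext z'
      ext v w
      rw [inChart_apply]
      have h1 : (newForm m b g x).at ((extChartAt J y).symm z') =
          Real.exp (2 * (Θ x ((extChartAt J y).symm z') + lam x)) •
            h₀.form.at ((extChartAt J y).symm z') := hform x _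
      rw [h1]
      simp only [conf, ContinuousLinearMap.smul_apply, inChart_apply, hφdef]
    have hφ : ContDiffAt ℝ 2 φ z := by
      have h1 : ContDiffAt ℝ 2 (fun p : E₁ × E₂ =>
        Θ ((extChartAt I x).symm p.1) ((extChartAt J y).symm p.2))
        (extChartAt I x x, extChartAt J y y) := (hΘs x y).of_le (by norm_cast)
      have h2 : ContDiffAt ℝ 2 (fun z' : E₂ => (extChartAt I x x, z')) z :=
        contDiffAt_const.prodMk contDiffAt_id
      have h3 := ContDiffAt.comp z (g := fun p : E₁ × E₂ =>
        Θ ((extChartAt I x).symm p.1) ((extChartAt J y).symm p.2))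
        (f := fun z' : E₂ => (extChartAt I x x, z')) h1 h2
      have h4 : ((fun p : E₁ × E₂ =>
        Θ ((extChartAt I x).symm p.1) ((extChartAt J y).symm p.2)) ∘
        (fun z' : E₂ => (extChartAt I x x, z'))) = fun z' => Θ x ((extChartAt J y).symm z') := by
        funext z'
        simp only [Function.comp, extChartAt_to_inv]
      rw [h4] at h3
      exact h3.add contDiffAt_const
    have hG : GoodAt (inChart J h₀.form y) z := by
      have : IsManifold J 1 N := IsManifold.of_le (n := ∞) (by norm_cast)
      exact goodAt_chart h₀ y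
    have horth : IsOrtho (inChart J (newForm m b g x) y z)
        (fun i => Real.exp (-φ z) • e i) := by
      intro i j
      rw [heq]
      simp only [conf, ContinuousLinearMap.smul_apply, map_smul, smul_eq_mul]
      rw [he i j]
      have : Real.exp (2 * φ z) * (Real.exp (-φ z) * Real.exp (-φ z)) = 1 := by
        rw [← Real.exp_add, ← Real.exp_add]
        have : 2 * φ z + (-φ z + -φ z) = 0 := by ring
        rw [this, Real.exp_zero]
      calc _ = (Real.exp (2 * φ z) * (Real.exp (-φ z) * Real.exp (-φ z))) *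
            (if i = j then 1 else 0) := by ring
        _ = _ := by rw [this, one_mul]
    have h5 := mpt x y d hloc _ horth
    rw [heq] at h5
    have h6 := cnf hG hφ e he
    rw [h6] at h5
    have h7 : 0 < pf m φ (inChart J h₀.form y) z e :=
      (mul_pos_iff_of_pos_left (Real.exp_pos _)).1 h5
    rw [hφdef, pf_add_const] at h7
    exact h7
  rcases hc₁.lt_or_eq with hc | hc
  · apply core x
    intro x'
    have h1 := hmin x'
    rw [hΘ, hΘ] at h1
    have h2 : Real.log (ρ x y) ≤ Real.log (ρ x' y) := by
      have h3 : c₁ * Real.log (ρ x y) ≤ c₁ * Real.log (ρ x' y) := by linarith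
      exact le_of_mul_le_mul_left h3 hc
    exact (Real.log_le_log_iff (hpos x y) (hpos x' y)).1 h2
  · obtain ⟨x', _, hx'⟩ := isCompact_univ.exists_isMinOn ⟨x, Set.mem_univ _⟩
      (cont_rho (I := I) (J := J) ρ hsm y).continuousOn
    have h1 := core x' (fun x'' => hx' (Set.mem_univ x''))
    have h2 : (fun z => Θ x ((extChartAt J y).symm z)) =
        fun z => Θ x' ((extChartAt J y).symm z) := by
      funext z
      rw [hΘ, hΘ, ← hc]
      ring
    rw [h2]
    exact h1

end manifold

end Pool.Agent.Helper95.SL
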